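import Mathlib
import Pool.Agent.H.MP_aa6101_gt.Main
set_option autoImplicit false
namespace Pool.Agent.Results.MP_aa6101_gt.Counter
open Set Topology Filter Pool.Agent.H.MP_aa6101_gt

def Qp (X : Type) [TopologicalSpace X] : Set (X → ℝ) :=
  {f | ∀ x U V, IsOpen U → x ∈ U → IsOpen V → f x ∈ V →
    ∃ W, IsOpen W ∧ W.Nonempty ∧ W ⊆ U ∧ MapsTo f W V}

lemma fu {X : Type} (Y : Set (X → ℝ)) (x₀ : X) (h : ∀ f ∈ Y, {x | f x ≠ f x₀}.Countable) :
    FrechetUrysohnSpace Y := by
  classical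
  choose e he using fun f : Y => ((h f f.2).insert x₀).exists_eq_range (insert_nonempty _ _)
  refine ⟨fun A f hf => ?_⟩
  obtain ⟨s, h1, h2⟩ := exists_seq_of_forall_finset_exists
    (fun p : Y × ℕ => p.1 ∈ A ∧ ∀ i ≤ p.2, dist (p.1.1 (e f i)) (f.1 (e f i)) < 1 / (p.2 + 1))
    (fun p q => p.2 < q.2 ∧ ∀ i ≤ q.2, dist (q.1.1 (e p.1 i)) (f.1 (e p.1 i)) < 1 / (q.2 + 1))
    fun s _ => by
      let k := s.sup Prod.snd + 1
      obtain ⟨g, h1, h2⟩ := mem_closure_iff_nhds.1 hf {g | ∀ p ∈ insert (f, 0) s, ∀ i ∈ Iic k,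
        dist (g.1 (e p.1 i)) (f.1 (e p.1 i)) < 1 / (k + 1)}
        ((eventually_all_finset _).2 fun p _ => (eventually_all_finite (finite_Iic k)).2 fun i _ =>
          ContinuousAt.eventually_lt (((continuous_apply _).comp continuous_subtype_val).dist
            continuous_const).continuousAt continuousAt_const (by simp; positivity))
      exact ⟨(g, k), ⟨h2, h1 _ (Finset.mem_insert_self _ _)⟩, fun p hp =>
        ⟨Nat.lt_succ_of_le (Finset.le_sup hp), h1 p (Finset.mem_insert_of_mem hp)⟩⟩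
  have h3 : Tendsto (fun n => (s n).2) atTop atTop :=
    StrictMono.tendsto_atTop fun m n h => (h2 m n h).1
  have h4 (x) (H : ∀ᶠ n in atTop, dist ((s n).1.1 x) (f.1 x) < 1 / ((s n).2 + 1)) :
      Tendsto (fun n => (s n).1.1 x) atTop (𝓝 (f.1 x)) :=
    tendsto_iff_dist_tendsto_zero.2 (squeeze_zero' (.of_forall fun _ => dist_nonneg)
      (H.mono fun _ => le_of_lt) (tendsto_one_div_add_atTop_nhds_zero_nat.comp h3))
  have h5 (i) := h4 _ ((h3.eventually_ge_atTop i).mono fun n => (h1 n).2 i)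
  refine ⟨fun n => (s n).1, fun n => (h1 n).1, tendsto_subtype_rng.2 (tendsto_pi_nhds.2 fun x => ?_)⟩
  by_cases h6 : ∃ m i, e (s m).1 i = x
  · obtain ⟨m, i, rfl⟩ := h6
    exact h4 _ (((h3.eventually_ge_atTop i).and (eventually_gt_atTop m)).mono
      fun n h => (h2 m n h.2).2 i h.1)
  by_cases h7 : ∃ i, e f i = x
  · obtain ⟨i, rfl⟩ := h7
    exact h5 i
  obtain ⟨i, hi⟩ := (he f).le (mem_insert _ _)
  have h8 (g : Y) (h : ¬ ∃ i, e g i = x) : g.1 x₀ = g.1 x :=
    (by_contra fun h' => h ((he g).le (Or.inr h')) : g.1 x = g.1 x₀).symm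
  rw [← h8 f h7]
  exact (hi ▸ h5 i).congr fun n => h8 _ fun h => h6 ⟨n, h⟩

theorem result : ∃ (X : Type) (_ : TopologicalSpace X), T2Space X ∧
    FrechetUrysohnSpace (Qp X) ∧ ∃ A : Set X, IsNowhereDense A ∧ ¬ A.Countable := by
  obtain ⟨D, _, P, _, _, h1, h2, h3, h4, h5, h6⟩ := core
  have := Lib.helper23.uncountable_cantor
  refine ⟨Ext P, inferInstance, t2 P h2 h4 h5, fu _ (inr P none) fun f hf => ?_, range (inr P), ?_,
    fun h => ?_⟩
  · have h7 (e) : Tendsto (f ∘ inl P) (P e) (𝓝 (f (inr P e))) := tendsto_nhds.2 fun V hV h =>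
      mem_of_superset ((h3 e _ isOpen_interior).resolve_right fun h7 => by
        obtain ⟨W, h8, h9, h10, h11⟩ :=
          hf _ _ V (open_ins P isClosed_closure.isOpen_compl h7) (Or.inl rfl) hV h
        obtain ⟨d, hd⟩ := meet P h1 h8 h9
        obtain ⟨_, h12, h13⟩ := (h10 hd).resolve_left (nomatch ·)
        exact h12 ((emb P).injective h13 ▸ subset_closure (interior_maximal (t := inl P ⁻¹' W)
          (fun _ h => h11 h) h8.1 hd))) interior_subset
    refine ((countable_range (inl P)).union ((countable_iUnion fun n : ℕ => h6 _ (h7 none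
      (Metric.ball_mem_nhds _ (Nat.one_div_pos_of_nat (n := n))))).image
        fun a => inr P (some a))).mono ?_
    rintro (d | _ | a) h
    · exact Or.inl ⟨d, rfl⟩
    · exact (h rfl).elim
    · refine Or.inr ⟨a, by_contra fun h' => h (tendsto_nhds_unique (h7 (some a))
        (Metric.nhds_basis_ball_inv_nat_succ.tendsto_right_iff.2 fun n _ => ?_)), rfl⟩
      exact by_contra fun h8 => h' (mem_iUnion.2 ⟨n, h8⟩)
  · have h7 : IsClosed (range (inr P)) := ⟨(open_iff P).2 ⟨by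
      convert isOpen_univ
      exact eq_univ_of_forall fun _ ⟨_, h⟩ => (nomatch h), fun j h => (h ⟨j, rfl⟩).elim⟩⟩
    rw [h7.isNowhereDense_iff, ← not_nonempty_iff_eq_empty]
    intro h
    obtain ⟨d, hd⟩ := meet P h1 isOpen_interior h
    obtain ⟨_, h⟩ := interior_subset hd
    nomatch h
  · exact not_countable_univ ((h.preimage_of_injOn (f := fun a => inr P (some a))
      fun _ _ _ _ h => Option.some_injective _ (Sum.inr_injective h)).mono fun a _ => mem_range_self _)

end Pool.Agent.Results.MP_aa6101_gt.Counter
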